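import Pool.Agent.H32.N6.TargetsB
import Pool.Agent.H69.N6B.BG1

set_option autoImplicit false

open Polynomial NumberField IsDedekindDomain Matrix Pool.Agent.H32.QC Pool.Agent.H34.N6
  Pool.Agent.H32.N6

namespace Pool.Agent.H17.N6B

theorem norm_eval_sub_le {F : Type} [NormedField F] [IsUltrametricDist F] (p : F[X])
    (hp : ∀ i, ‖p.coeff i‖ ≤ 1) (t e : F) (ht : ‖t‖ ≤ 1) (he : ‖e‖ ≤ 1) :
    ‖eval t p - eval e p‖ ≤ ‖t - e‖ := by
  rw [Polynomial.eval_eq_sum_range, Polynomial.eval_eq_sum_range, ← Finset.sum_sub_distrib]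
  refine IsUltrametricDist.norm_sum_le_of_forall_le_of_nonneg (norm_nonneg _) fun n _ => ?_
  rw [← mul_sub, ← geom_sum₂_mul, norm_mul, norm_mul]
  have h1 : ‖∑ i ∈ Finset.range n, t ^ i * e ^ (n - 1 - i)‖ ≤ 1 := by
    refine IsUltrametricDist.norm_sum_le_of_forall_le_of_nonneg zero_le_one fun i _ => ?_
    rw [norm_mul, norm_pow, norm_pow]
    exact mul_le_one₀ (pow_le_one₀ (norm_nonneg _) ht) (by positivity)
      (pow_le_one₀ (norm_nonneg _) he)
  calc ‖p.coeff n‖ * (‖∑ i ∈ Finset.range n, t ^ i * e ^ (n - 1 - i)‖ * ‖t - e‖)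
      ≤ 1 * (1 * ‖t - e‖) := by
        apply mul_le_mul (hp n) (mul_le_mul_of_nonneg_right h1 (norm_nonneg _)) (by positivity)
          zero_le_one
    _ = ‖t - e‖ := by ring

theorem pf_BG2 (hBTD : T_BTD) (hBUD : T_BUD) (hBRO : T_BRO) (hBDC : T_BDC)
    (hTIC : Pool.Agent.H32.SAB.T_TIC) (hTAM : T_TAM) : T_GB2 := by
  intro F _ _ _ _ P D t h2 hP h7 hPi hDi hsep hcop hsq ht htP hex hTI
  obtain ⟨e, he0, het, hmax, hDe⟩ := hex
  have hud : ‖(gA P D 0).det‖ = 1 := hBUD F P D hP h7 hPi hDi hcop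
  have he1 : ‖e‖ ≤ 1 := by
    have : e = (e - t) + t := by ring
    rw [this]
    exact (IsUltrametricDist.norm_add_le_max _ _).trans (max_le het.le ht)
  have hlt : ‖eval t P‖ < 1 := by
    have h := norm_eval_sub_le P hPi t e ht he1
    rw [he0, sub_zero, norm_sub_rev] at h
    exact lt_of_le_of_lt h het
  obtain ⟨e2, he20, he2t, he'⟩ := hBRO F P t h2 hP h7 hPi hsep ht hlt
  obtain ⟨hee, P1, hP1, hM1, hd1, hi1, hn1, hn2, hs1⟩ := he' e he0 het
  subst hee
  have hDn : ‖eval e D‖ = 1 := by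
    obtain ⟨a, b, ha, hb, hab⟩ := hcop
    have h := congrArg (eval e) hab
    rw [eval_add, eval_mul, eval_mul, he0, mul_zero, zero_add, eval_one] at h
    have h' := congrArg norm h
    rw [norm_mul, norm_one] at h'
    have hb1 := Pool.Agent.H69.N6B.norm_eval_le b hb e he1
    have hD1 := Pool.Agent.H69.N6B.norm_eval_le D hDi e he1
    by_contra hne
    have hlt' : ‖eval e D‖ < 1 := lt_of_le_of_ne hD1 hne
    have : ‖eval e b‖ * ‖eval e D‖ < 1 := by
      have h0 := norm_nonneg (eval e D)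
      nlinarith
    linarith
  obtain ⟨C0, u, w, hC0, hu, hw, hwn, hsqu, hdiag⟩ :=
    hBDC F P D P1 t e h2 hP h7 hPi hDi hud hsq ht he1 htP hP1 hM1 hd1 hi1 hn1 hn2 hs1 hDn
  have hsnoc : (Fin.snoc u w : Fin 7 → F) = ![u 0, u 1, u 2, u 3, u 4, u 5, w] := by
    funext i
    fin_cases i <;> rfl
  have hT := (hTIC F 7 3 (ft P D t) C0 hC0).2 hTI
  rw [hdiag, hsnoc] at hT
  have hT1 := (Pool.Agent.H69.N6B.step hBTD h2 _ _ _ _ _ _ _ (hu 0) (hu 1) (hu 2) (hu 3) (hu 4)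
    (Pool.Agent.H69.N6B.ne_of_norm (hu 5)) hw).1 hT
  have hprod : (∏ i, u i) = u 0 * u 1 * u 2 * u 3 * u 4 * u 5 := by
    rw [Fin.prod_univ_six]
  rw [hprod] at hsqu
  set p := u 0 * u 1 * u 2 * u 3 * u 4 with hpdef
  have hpn : ‖p‖ = 1 := by
    rw [hpdef]
    simp only [norm_mul, hu, mul_one]
  have hp0 : p ≠ 0 := Pool.Agent.H69.N6B.ne_of_norm hpn
  obtain ⟨b, hb, hb0⟩ := hT1
  have hbne : b 0 ≠ 0 := hb.ne_zero 0
  have hq := hb0 0 0
  have hq' : p * b 0 0 ^ 2 + u 5 * b 0 1 ^ 2 + w * b 0 2 ^ 2 = 0 := by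
    have ev : (Matrix.diagonal ![p, u 5, w]) *ᵥ b 0 = ![p * b 0 0, u 5 * b 0 1, w * b 0 2] := by
      funext k
      rw [Matrix.mulVec_diagonal]
      fin_cases k <;> rfl
    rw [ev, dotProduct, Fin.sum_univ_three] at hq
    have hq2 : b 0 0 * (p * b 0 0) + b 0 1 * (u 5 * b 0 1) + b 0 2 * (w * b 0 2) = 0 := hq
    linear_combination hq2
  have hsol : Sol (-(p * u 5)) (-(p * w)) := by
    refine ⟨b 0 1, b 0 2, p * b 0 0, ?_, ?_⟩
    · by_contra hcon
      push Not at hcon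
      obtain ⟨c1, c2, c3⟩ := hcon
      apply hbne
      funext i
      fin_cases i
      · exact (mul_eq_zero.1 c3).resolve_left hp0
      · exact c1
      · exact c2
    · linear_combination p * hq'
  refine hTAM F h2 (-(p * u 5)) (-(p * w)) ?_ ?_ ?_ ?_ hsol
  · rw [norm_neg, norm_mul, hpn, hu 5, one_mul]
  · rintro ⟨r, hr⟩
    apply hDe
    obtain ⟨x, hx⟩ := hsqu
    have hr0 : r ≠ 0 := by
      rintro rfl
      rw [mul_zero, neg_eq_zero] at hr
      exact mul_ne_zero hp0 (Pool.Agent.H69.N6B.ne_of_norm (hu 5)) hr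
    refine ⟨x / r, ?_⟩
    rw [hr] at hx
    field_simp
    linear_combination hx
  · exact neg_ne_zero.2 (mul_ne_zero hp0 hw)
  · intro d hd
    rw [norm_neg, norm_mul, hpn, one_mul, hwn] at hd
    have hd1' : ‖d‖ < 1 := by
      by_contra hge
      push Not at hge
      nlinarith
    have hd2 := hmax d hd1'
    rw [hd] at hd2
    have hd3 : ‖d‖ ≤ 0 := by
      have := norm_nonneg d
      nlinarith
    have hd4 : ‖d‖ = 0 := le_antisymm hd3 (norm_nonneg d)
    rw [hd4] at hd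
    apply hw
    rw [← norm_eq_zero, hwn, hd]
    norm_num

end Pool.Agent.H17.N6B
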